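import Pool.Agent.Lib_helper74.OPS.DerOf

/-!
# MP_859019, one pure state: the block DER
-/

set_option autoImplicit false
set_option linter.unusedSectionVars false

open scoped BigOperators ComplexOrder Kronecker MatrixOrder Topology Real
open MeasureTheory Set Matrix Filter Metric

namespace Pool.Agent.Lib_helper74.OPS

open Pool.Agent.OPS Pool.Agent.QB

variable {m ι : Type} [Fintype m] [DecidableEq m] [Fintype ι] [DecidableEq ι]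

/-- `D2, D1` and the contour identity on the circle `C(c, ρ)` -/
def DerOn (p c ρ : ℝ) (P Q : Matrix m m ℂ) (be y : ι → ℝ) (j0 : ι) : Prop :=
  ∃ (D2 : ι → ℝ) (D1 : ℝ),
    (∀ j, C2at (fun x => hPQ p P Q be (y + Pi.single j x)) (D2 j)) ∧
    HasDerivAt (fun x => hPQ p P Q be (y + Pi.single j0 x)) D1 0 ∧
    ((∑ j, y j * D2 j - (p - 1) * D1 : ℝ) : ℂ) = -(p / 2 : ℝ) *
      ((2 * π * Complex.I : ℂ)⁻¹ *
        ∮ z in C((c : ℂ), ρ), z ^ ((p - 1 : ℝ) : ℂ) * FF P Q be y z)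

/-- positive definite `P, Q`: every large circle -/
theorem der_pd {P Q : Matrix m m ℂ} (hP : P.PosDef) (hQ : Q.PosDef) (be : ι → ℝ) (j0 : ι)
    (hb0 : be j0 = 0) (hb : ∀ j, j ≠ j0 → 0 < be j) (y : ι → ℝ) (hy : ∀ j, 0 < y j) (p : ℝ) :
    ∃ δ M : ℝ, 0 < δ ∧ ∀ c ρ : ℝ, 0 < ρ → ρ < c → c - ρ < δ → M < c + ρ →
      (∀ hX : (XX P Q be y).IsHermitian, ∀ i, |hX.eigenvalues i - c| < ρ) ∧
      (∀ hQ' : Q.IsHermitian, ∀ j, j ≠ j0 → ∀ i, |be j * hQ'.eigenvalues i - c| < ρ) ∧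
      DerOn p c ρ P Q be y j0 := by
  obtain ⟨δ, M, hδ, h⟩ := der_hyp_pd hP hQ be j0 hb0 hb y hy p
  refine ⟨δ, M, hδ, fun c ρ hρ hρc h1 h2 => ?_⟩
  obtain ⟨hX, hQ', hS, hE⟩ := h c ρ hρ hρc h1 h2
  exact ⟨hX, hQ', der_of hρ hρc j0 hb0 hy
    ((Matrix.isUnit_iff_isUnit_det _).mp hP.isUnit).ne_zero hS hE⟩

/-- positive definite `P`, `Q = uu*`: every large circle -/
theorem der_u {P : Matrix m m ℂ} (hP : P.PosDef) (u : m → ℂ) (be : ι → ℝ) (j0 : ι)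
    (hb0 : be j0 = 0) (hb : ∀ j, j ≠ j0 → 0 < be j) (y : ι → ℝ) (hy : ∀ j, 0 < y j)
    {p : ℝ} (hp : p ≠ 0) :
    ∃ δ M : ℝ, 0 < δ ∧ ∀ c ρ : ℝ, 0 < ρ → ρ < c → c - ρ < δ → M < c + ρ →
      DerOn p c ρ P (vecMulVec u (star u)) be y j0 := by
  obtain ⟨δ, M, hδ, h⟩ := Pool.Agent.Lib_helper88.OPS.der_hyp_u P hP u be j0 hb0 hb y hy hp
  refine ⟨δ, M, hδ, fun c ρ hρ hρc h1 h2 => ?_⟩
  obtain ⟨hS, hE⟩ := h c ρ hρ hρc h1 h2
  exact der_of hρ hρc j0 hb0 hy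
    ((Matrix.isUnit_iff_isUnit_det _).mp hP.isUnit).ne_zero hS hE

/-- large circles exist -/
theorem exists_circle {δ : ℝ} (hδ : 0 < δ) (M : ℝ) :
    ∃ c ρ : ℝ, 0 < ρ ∧ ρ < c ∧ c - ρ < δ ∧ M < c + ρ := by
  have h1 : 0 < min δ 1 := lt_min hδ one_pos
  have h2 := min_le_left δ 1
  have h3 := min_le_right δ 1
  have h4 := le_max_left M 1
  have h5 := le_max_right M 1
  refine ⟨(max M 1 + 1 + min δ 1 / 2) / 2, (max M 1 + 1 - min δ 1 / 2) / 2, ?_, ?_, ?_, ?_⟩ <;>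
    linarith

/-- block DER -/
theorem derTarget : DerTarget := by
  intro m ι _ _ _ _ P Q hP hQ be j0 hb0 hb y hy p
  obtain ⟨δ, M, hδ, h⟩ := der_pd hP hQ be j0 hb0 hb y hy p
  obtain ⟨c, ρ, hρ, hρc, h1, h2⟩ := exists_circle hδ M
  obtain ⟨hX, hQ', D2, D1, hD2, hD1, he⟩ := h c ρ hρ hρc h1 h2
  exact ⟨D2, D1, c, ρ, hρ, hρc, hX, hQ', hD2, hD1, he⟩

end Pool.Agent.Lib_helper74.OPS
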