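import Pool.Agent.Lib_helper69.QB.CIM2

/-!
# ONE PURE STATE: the algebra of the integrand
-/

set_option autoImplicit false

open scoped BigOperators Topology Real Kronecker
open MeasureTheory Set Matrix Filter Metric

namespace Pool.Agent.OPSA

open Pool.Agent.QB

variable {κ J : Type} [Fintype κ] [DecidableEq κ] [Fintype J] [DecidableEq J]

/-- The matrix `P ⊗ 1 y^T + Q ⊗ diag be`. -/
noncomputable def XX (P Q : Matrix κ κ ℂ) (be y : J → ℝ) : Matrix (κ × J) (κ × J) ℂ :=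
  P ⊗ₖ (Matrix.of fun _ k => (y k : ℂ)) + Q ⊗ₖ (Matrix.diagonal fun j => (be j : ℂ))

/-- The direction `P ⊗ 1 e_j^T`. -/
noncomputable def M1 (P : Matrix κ κ ℂ) (j : J) : Matrix (κ × J) (κ × J) ℂ :=
  P ⊗ₖ (Matrix.of fun _ k => if k = j then (1 : ℂ) else 0)

/-- The resolvent of `be_j Q`. -/
noncomputable def SJ (Q : Matrix κ κ ℂ) (be : J → ℝ) (j : J) (z : ℂ) : Matrix κ κ ℂ :=
  (z • (1 : Matrix κ κ ℂ) - (be j : ℂ) • Q)⁻¹

/-- The matrix `τ`. -/
noncomputable def tau (P Q : Matrix κ κ ℂ) (be y : J → ℝ) (z : ℂ) : Matrix κ κ ℂ :=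
  (P⁻¹ - ∑ i, (y i : ℂ) • SJ Q be i z)⁻¹

/-- The column of identities. -/
def UU (κ J : Type) [DecidableEq κ] : Matrix (κ × J) κ ℂ := Matrix.of fun a b => if a.1 = b then 1 else 0

/-- The row `y`. -/
def YY (κ : Type) [DecidableEq κ] (y : J → ℝ) : Matrix κ (κ × J) ℂ :=
  Matrix.of fun a b => if a = b.1 then (y b.2 : ℂ) else 0

/-- The row `e_j`. -/
def EE (κ : Type) [DecidableEq κ] (j : J) : Matrix κ (κ × J) ℂ :=
  Matrix.of fun a b => if a = b.1 then (if b.2 = j then 1 else 0) else 0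

theorem mul_UU_apply (A : Matrix κ (κ × J) ℂ) (a b : κ) :
    (A * UU κ J) a b = ∑ j, A a (b, j) := by
  rw [Matrix.mul_apply, Fintype.sum_prod_type]
  rw [Finset.sum_comm]
  apply Finset.sum_congr rfl
  intro j _
  rw [Finset.sum_eq_single b]
  · simp [UU]
  · intro c _ hc
    simp [UU, hc]
  · intro h
    exact absurd (Finset.mem_univ b) h

theorem YY_mul_apply (y : J → ℝ) (A : Matrix (κ × J) κ ℂ) (a b : κ) :
    (YY κ y * A) a b = ∑ j, (y j : ℂ) * A (a, j) b := by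
  rw [Matrix.mul_apply, Fintype.sum_prod_type, Finset.sum_comm]
  apply Finset.sum_congr rfl
  intro j _
  rw [Finset.sum_eq_single a]
  · simp [YY]
  · intro c _ hc
    simp [YY, Ne.symm hc]
  · intro h
    exact absurd (Finset.mem_univ a) h

theorem UPY (P : Matrix κ κ ℂ) (y : J → ℝ) :
    P ⊗ₖ (Matrix.of fun (_ : J) k => (y k : ℂ)) = UU κ J * P * YY κ y := by
  ext ⟨a, i⟩ ⟨b, k⟩
  rw [Matrix.mul_assoc, Matrix.mul_apply, Finset.sum_eq_single a]
  · rw [Matrix.mul_apply, Finset.sum_eq_single b]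
    · simp [UU, YY, Matrix.kroneckerMap_apply]
    · intro c _ hc
      simp [YY, hc]
    · intro h
      exact absurd (Finset.mem_univ b) h
  · intro c _ hc
    simp [UU, Ne.symm hc]
  · intro h
    exact absurd (Finset.mem_univ a) h

theorem M1_eq (P : Matrix κ κ ℂ) (j : J) : M1 P j = UU κ J * P * EE κ j := by
  ext ⟨a, i⟩ ⟨b, k⟩
  unfold M1
  rw [Matrix.mul_assoc, Matrix.mul_apply, Finset.sum_eq_single a]
  · rw [Matrix.mul_apply, Finset.sum_eq_single b]
    · simp [UU, EE, Matrix.kroneckerMap_apply]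
    · intro c _ hc
      simp [EE, hc]
    · intro h
      exact absurd (Finset.mem_univ b) h
  · intro c _ hc
    simp [UU, Ne.symm hc]
  · intro h
    exact absurd (Finset.mem_univ a) h

theorem bd_eq (Q : Matrix κ κ ℂ) (be : J → ℝ) (z : ℂ) :
    z • (1 : Matrix (κ × J) (κ × J) ℂ) - Q ⊗ₖ (Matrix.diagonal fun j => (be j : ℂ)) =
      Matrix.blockDiagonal fun j => z • (1 : Matrix κ κ ℂ) - (be j : ℂ) • Q := by
  ext ⟨a, i⟩ ⟨b, k⟩
  rw [Matrix.blockDiagonal_apply]
  by_cases hik : i = k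
  · subst hik
    simp [Matrix.one_apply, Matrix.kroneckerMap_apply, mul_comm]
  · simp [Matrix.one_apply, Matrix.kroneckerMap_apply, hik]

section point

variable {P Q : Matrix κ κ ℂ} {be y : J → ℝ} {z : ℂ}

theorem SS_inv (hS : ∀ j, (z • (1 : Matrix κ κ ℂ) - (be j : ℂ) • Q).det ≠ 0) :
    (Matrix.blockDiagonal fun j => z • (1 : Matrix κ κ ℂ) - (be j : ℂ) • Q) *
      (Matrix.blockDiagonal fun j => SJ Q be j z) = 1 := by
  rw [← Matrix.blockDiagonal_mul, ← Matrix.blockDiagonal_one]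
  congr 1
  funext j
  exact Matrix.mul_nonsing_inv _ (isUnit_iff_ne_zero.2 (hS j))

theorem SU_apply (a b : κ) (j : J) :
    ((Matrix.blockDiagonal fun j => SJ Q be j z) * UU κ J) (a, j) b = SJ Q be j z a b := by
  rw [Matrix.mul_apply, Fintype.sum_prod_type, Finset.sum_eq_single b]
  · rw [Finset.sum_eq_single j]
    · simp [UU, Matrix.blockDiagonal_apply]
    · intro k _ hk
      simp [Matrix.blockDiagonal_apply, Ne.symm hk]
    · intro h
      exact absurd (Finset.mem_univ j) h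
  · intro c _ hc
    apply Finset.sum_eq_zero
    intro k _
    simp [UU, hc]
  · intro h
    exact absurd (Finset.mem_univ b) h

theorem YSU : YY κ y * ((Matrix.blockDiagonal fun j => SJ Q be j z) * UU κ J) =
    ∑ i, (y i : ℂ) • SJ Q be i z := by
  ext a b
  rw [YY_mul_apply, Matrix.sum_apply]
  apply Finset.sum_congr rfl
  intro j _
  rw [SU_apply, Matrix.smul_apply, smul_eq_mul]

theorem ESU (j : J) : EE κ j * ((Matrix.blockDiagonal fun j => SJ Q be j z) * UU κ J) =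
    SJ Q be j z := by
  ext a b
  rw [Matrix.mul_apply, Fintype.sum_prod_type, Finset.sum_eq_single a]
  · rw [Finset.sum_eq_single j]
    · rw [SU_apply]
      simp [EE]
    · intro k _ hk
      simp [EE, hk]
    · intro h
      exact absurd (Finset.mem_univ j) h
  · intro c _ hc
    apply Finset.sum_eq_zero
    intro k _
    simp [EE, Ne.symm hc]
  · intro h
    exact absurd (Finset.mem_univ a) h

/-- The row `e_j` times the block diagonal matrix. -/
theorem ES (j : J) : EE κ j * (Matrix.blockDiagonal fun j => SJ Q be j z) =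
    SJ Q be j z * EE κ j := by
  ext a ⟨b, k⟩
  rw [Matrix.mul_apply, Fintype.sum_prod_type, Finset.sum_eq_single a, Matrix.mul_apply,
    Finset.sum_eq_single b]
  · rw [Finset.sum_eq_single k]
    · by_cases hk : k = j
      · subst hk
        simp [EE, Matrix.blockDiagonal_apply]
      · simp [EE, hk]
    · intro i _ hi
      simp [Matrix.blockDiagonal_apply, hi]
    · intro h
      exact absurd (Finset.mem_univ k) h
  · intro c _ hc
    simp [EE, hc]
  · intro h
    exact absurd (Finset.mem_univ b) h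
  · intro c _ hc
    apply Finset.sum_eq_zero
    intro i _
    simp [EE, Ne.symm hc]
  · intro h
    exact absurd (Finset.mem_univ a) h

/-- The determinants. -/
theorem det_tau (hP : P.det ≠ 0) (hS : ∀ j, (z • (1 : Matrix κ κ ℂ) - (be j : ℂ) • Q).det ≠ 0)
    (hX : (z • (1 : Matrix (κ × J) (κ × J) ℂ) - XX P Q be y).det ≠ 0) :
    (P⁻¹ - ∑ i, (y i : ℂ) • SJ Q be i z).det ≠ 0 := by
  set BD := Matrix.blockDiagonal fun j => z • (1 : Matrix κ κ ℂ) - (be j : ℂ) • Q with hBD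
  set SS := Matrix.blockDiagonal fun j => SJ Q be j z with hSS
  have h1 : z • (1 : Matrix (κ × J) (κ × J) ℂ) - XX P Q be y = BD - UU κ J * P * YY κ y := by
    unfold XX
    rw [UPY, hBD, ← bd_eq]
    abel
  have h2 : BD * SS = 1 := SS_inv hS
  have h3 : BD - UU κ J * P * YY κ y = BD * (1 - SS * UU κ J * (P * YY κ y)) := by
    rw [Matrix.mul_sub, Matrix.mul_one, ← Matrix.mul_assoc BD (SS * UU κ J), ← Matrix.mul_assoc BD SS,
      h2, Matrix.one_mul, Matrix.mul_assoc (UU κ J) P]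
  have h4 : (1 - SS * UU κ J * (P * YY κ y)).det ≠ 0 := by
    intro h0
    apply hX
    rw [h1, h3, Matrix.det_mul, h0, mul_zero]
  rw [Matrix.det_one_sub_mul_comm] at h4
  have h5 : (1 - P * YY κ y * (SS * UU κ J)) = P * (P⁻¹ - ∑ i, (y i : ℂ) • SJ Q be i z) := by
    rw [Matrix.mul_sub, Matrix.mul_nonsing_inv _ (isUnit_iff_ne_zero.2 hP), Matrix.mul_assoc P,
      YSU]
  rw [h5, Matrix.det_mul] at h4
  exact right_ne_zero_of_mul h4

/-- The resolvent times the column of identities. -/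
theorem RU (hP : P.det ≠ 0) (hS : ∀ j, (z • (1 : Matrix κ κ ℂ) - (be j : ℂ) • Q).det ≠ 0)
    (hX : (z • (1 : Matrix (κ × J) (κ × J) ℂ) - XX P Q be y).det ≠ 0) :
    (z • (1 : Matrix (κ × J) (κ × J) ℂ) - XX P Q be y)⁻¹ * UU κ J =
      (Matrix.blockDiagonal fun j => SJ Q be j z) * UU κ J * tau P Q be y z * P⁻¹ := by
  have ht := det_tau hP hS hX
  set BD := Matrix.blockDiagonal fun j => z • (1 : Matrix κ κ ℂ) - (be j : ℂ) • Q with hBD
  set SS := Matrix.blockDiagonal fun j => SJ Q be j z with hSS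
  have h1 : z • (1 : Matrix (κ × J) (κ × J) ℂ) - XX P Q be y = BD - UU κ J * P * YY κ y := by
    unfold XX
    rw [UPY, hBD, ← bd_eq]
    abel
  have h2 : BD * SS = 1 := SS_inv hS
  have hPP : P * P⁻¹ = 1 := Matrix.mul_nonsing_inv _ (isUnit_iff_ne_zero.2 hP)
  have htt : (P⁻¹ - ∑ i, (y i : ℂ) • SJ Q be i z) * tau P Q be y z = 1 :=
    Matrix.mul_nonsing_inv _ (isUnit_iff_ne_zero.2 ht)
  have h3 : (z • (1 : Matrix (κ × J) (κ × J) ℂ) - XX P Q be y) *
      (SS * UU κ J * tau P Q be y z * P⁻¹) = UU κ J := by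
    rw [h1, Matrix.sub_mul]
    have e1 : BD * (SS * UU κ J * tau P Q be y z * P⁻¹) = UU κ J * (tau P Q be y z * P⁻¹) := by
      rw [Matrix.mul_assoc (SS * UU κ J), ← Matrix.mul_assoc BD (SS * UU κ J),
        ← Matrix.mul_assoc BD SS, h2, Matrix.one_mul]
    have e2 : UU κ J * P * YY κ y * (SS * UU κ J * tau P Q be y z * P⁻¹) =
        UU κ J * (P * (∑ i, (y i : ℂ) • SJ Q be i z) * (tau P Q be y z * P⁻¹)) := by
      rw [Matrix.mul_assoc (SS * UU κ J), Matrix.mul_assoc (UU κ J * P),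
        ← Matrix.mul_assoc (YY κ y) (SS * UU κ J), YSU]
      simp only [Matrix.mul_assoc]
    rw [e1, e2, ← Matrix.mul_sub]
    have e3 : tau P Q be y z * P⁻¹ -
        P * (∑ i, (y i : ℂ) • SJ Q be i z) * (tau P Q be y z * P⁻¹) = 1 := by
      have e4 : tau P Q be y z * P⁻¹ -
          P * (∑ i, (y i : ℂ) • SJ Q be i z) * (tau P Q be y z * P⁻¹) =
          P * ((P⁻¹ - ∑ i, (y i : ℂ) • SJ Q be i z) * tau P Q be y z) * P⁻¹ := by
        rw [Matrix.sub_mul, Matrix.mul_sub, Matrix.sub_mul, ← Matrix.mul_assoc P P⁻¹, hPP,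
          Matrix.one_mul]
        simp only [Matrix.mul_assoc]
      rw [e4, htt, Matrix.mul_one, hPP]
    rw [e3, Matrix.mul_one]
  calc (z • (1 : Matrix (κ × J) (κ × J) ℂ) - XX P Q be y)⁻¹ * UU κ J =
      (z • (1 : Matrix (κ × J) (κ × J) ℂ) - XX P Q be y)⁻¹ *
        ((z • (1 : Matrix (κ × J) (κ × J) ℂ) - XX P Q be y) *
          (SS * UU κ J * tau P Q be y z * P⁻¹)) := by rw [h3]
    _ = SS * UU κ J * tau P Q be y z * P⁻¹ := by
        rw [← Matrix.mul_assoc, Matrix.nonsing_inv_mul _ (isUnit_iff_ne_zero.2 hX),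
          Matrix.one_mul]

/-- (A1), first formula. -/
theorem tr_RM (hP : P.det ≠ 0) (hS : ∀ j, (z • (1 : Matrix κ κ ℂ) - (be j : ℂ) • Q).det ≠ 0)
    (hX : (z • (1 : Matrix (κ × J) (κ × J) ℂ) - XX P Q be y).det ≠ 0) (j : J) :
    ((z • (1 : Matrix (κ × J) (κ × J) ℂ) - XX P Q be y)⁻¹ * M1 P j).trace =
      (SJ Q be j z * tau P Q be y z).trace := by
  have hPP : P⁻¹ * P = 1 := Matrix.nonsing_inv_mul _ (isUnit_iff_ne_zero.2 hP)
  rw [M1_eq, ← Matrix.mul_assoc, ← Matrix.mul_assoc, RU hP hS hX, Matrix.trace_mul_comm]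
  have h1 : EE κ j * ((Matrix.blockDiagonal fun j => SJ Q be j z) * UU κ J * tau P Q be y z *
      P⁻¹ * P) = SJ Q be j z * tau P Q be y z := by
    rw [Matrix.mul_assoc _ P⁻¹ P, hPP, Matrix.mul_one, ← Matrix.mul_assoc, ESU]
  rw [h1]

/-- (A1), second formula. -/
theorem tr_RMRM (hP : P.det ≠ 0) (hS : ∀ j, (z • (1 : Matrix κ κ ℂ) - (be j : ℂ) • Q).det ≠ 0)
    (hX : (z • (1 : Matrix (κ × J) (κ × J) ℂ) - XX P Q be y).det ≠ 0) (j : J) :
    ((z • (1 : Matrix (κ × J) (κ × J) ℂ) - XX P Q be y)⁻¹ * M1 P j *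
      ((z • (1 : Matrix (κ × J) (κ × J) ℂ) - XX P Q be y)⁻¹ * M1 P j)).trace =
      (SJ Q be j z * tau P Q be y z * (SJ Q be j z * tau P Q be y z)).trace := by
  have hPP : P⁻¹ * P = 1 := Matrix.nonsing_inv_mul _ (isUnit_iff_ne_zero.2 hP)
  have h0 : (z • (1 : Matrix (κ × J) (κ × J) ℂ) - XX P Q be y)⁻¹ * M1 P j =
      (Matrix.blockDiagonal fun j => SJ Q be j z) * UU κ J * tau P Q be y z * EE κ j := by
    rw [M1_eq, ← Matrix.mul_assoc, ← Matrix.mul_assoc, RU hP hS hX, Matrix.mul_assoc _ P⁻¹ P,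
      hPP, Matrix.mul_one]
  rw [h0]
  have h1 : (Matrix.blockDiagonal fun j => SJ Q be j z) * UU κ J * tau P Q be y z * EE κ j *
      ((Matrix.blockDiagonal fun j => SJ Q be j z) * UU κ J * tau P Q be y z * EE κ j) =
      (Matrix.blockDiagonal fun j => SJ Q be j z) * UU κ J * (tau P Q be y z *
        (SJ Q be j z * tau P Q be y z) * EE κ j) := by
    have e1 : EE κ j * ((Matrix.blockDiagonal fun j => SJ Q be j z) * UU κ J * tau P Q be y z *
        EE κ j) = SJ Q be j z * tau P Q be y z * EE κ j := by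
      rw [Matrix.mul_assoc _ (tau P Q be y z), ← Matrix.mul_assoc (EE κ j), ESU,
        ← Matrix.mul_assoc]
    rw [Matrix.mul_assoc _ (EE κ j), e1]
    simp only [Matrix.mul_assoc]
  rw [h1, Matrix.trace_mul_comm]
  have h2 : tau P Q be y z * (SJ Q be j z * tau P Q be y z) * EE κ j *
      ((Matrix.blockDiagonal fun j => SJ Q be j z) * UU κ J) =
      tau P Q be y z * (SJ Q be j z * tau P Q be y z) * SJ Q be j z := by
    rw [Matrix.mul_assoc _ (EE κ j), ESU]
  rw [h2, Matrix.trace_mul_comm]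
  congr 1
  simp only [Matrix.mul_assoc]

/-- The resolvent multiplied by the row `e_j` from the left. -/
theorem tr_RRM (hP : P.det ≠ 0) (hS : ∀ j, (z • (1 : Matrix κ κ ℂ) - (be j : ℂ) • Q).det ≠ 0)
    (hX : (z • (1 : Matrix (κ × J) (κ × J) ℂ) - XX P Q be y).det ≠ 0) (j : J) :
    ((z • (1 : Matrix (κ × J) (κ × J) ℂ) - XX P Q be y)⁻¹ * M1 P j *
      ((z • (1 : Matrix (κ × J) (κ × J) ℂ) - XX P Q be y)⁻¹ * 1)).trace =
      (SJ Q be j z * SJ Q be j z * tau P Q be y z).trace +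
        (SJ Q be j z * tau P Q be y z *
          (∑ i, (y i : ℂ) • (SJ Q be i z * SJ Q be i z)) * tau P Q be y z).trace := by
  have ht := det_tau hP hS hX
  set BD := Matrix.blockDiagonal fun j => z • (1 : Matrix κ κ ℂ) - (be j : ℂ) • Q with hBD
  set SS := Matrix.blockDiagonal fun j => SJ Q be j z with hSS
  set R := (z • (1 : Matrix (κ × J) (κ × J) ℂ) - XX P Q be y)⁻¹ with hR
  set T := tau P Q be y z with hT
  have hPP : P⁻¹ * P = 1 := Matrix.nonsing_inv_mul _ (isUnit_iff_ne_zero.2 hP)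
  have hRU : R * UU κ J = SS * UU κ J * T * P⁻¹ := RU hP hS hX
  have h1 : z • (1 : Matrix (κ × J) (κ × J) ℂ) - XX P Q be y = BD - UU κ J * P * YY κ y := by
    unfold XX
    rw [UPY, hBD, ← bd_eq]
    abel
  have h2 : BD * SS = 1 := SS_inv hS
  have hSB : SS * BD = 1 := mul_eq_one_comm.mp h2
  -- `R = SS + R U P Y SS`
  have h3 : R = SS + R * (UU κ J * P * YY κ y) * SS := by
    have e1 : R * (BD - UU κ J * P * YY κ y) = 1 := by
      rw [← h1]
      exact Matrix.nonsing_inv_mul _ (isUnit_iff_ne_zero.2 hX)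
    have e2 : R * BD = 1 + R * (UU κ J * P * YY κ y) := by
      rw [Matrix.mul_sub] at e1
      rw [← e1]
      abel
    calc R = R * BD * SS := by rw [Matrix.mul_assoc, h2, Matrix.mul_one]
      _ = SS + R * (UU κ J * P * YY κ y) * SS := by rw [e2, Matrix.add_mul, Matrix.one_mul]
  have h4 : R * (UU κ J * P * YY κ y) * SS = SS * UU κ J * T * YY κ y * SS := by
    rw [Matrix.mul_assoc (UU κ J) P, ← Matrix.mul_assoc R, hRU, Matrix.mul_assoc _ P⁻¹,
      ← Matrix.mul_assoc P⁻¹ P, hPP, Matrix.one_mul]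
  rw [h4] at h3
  -- the trace
  have h5 : R * M1 P j = SS * UU κ J * T * EE κ j := by
    rw [M1_eq, ← Matrix.mul_assoc, ← Matrix.mul_assoc, hRU, Matrix.mul_assoc _ P⁻¹ P,
      hPP, Matrix.mul_one]
  rw [Matrix.mul_one, h5]
  have h6 : (SS * UU κ J * T * EE κ j * R).trace = (T * (EE κ j * R * (SS * UU κ J))).trace := by
    have e1 : SS * UU κ J * T * EE κ j * R = SS * UU κ J * (T * EE κ j * R) := by
      simp only [Matrix.mul_assoc]
    rw [e1, Matrix.trace_mul_comm]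
    congr 1
    simp only [Matrix.mul_assoc]
  rw [h6]
  have h7 : SS * SS = Matrix.blockDiagonal fun j => SJ Q be j z * SJ Q be j z := by
    rw [hSS, Matrix.blockDiagonal_mul]
  have hgen : ∀ (M : J → Matrix κ κ ℂ) (a b : κ) (k : J),
      ((Matrix.blockDiagonal M) * UU κ J) (a, k) b = M k a b := by
    intro M a b k
    rw [Matrix.mul_apply, Fintype.sum_prod_type, Finset.sum_eq_single b]
    · rw [Finset.sum_eq_single k]
      · simp [UU, Matrix.blockDiagonal_apply]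
      · intro k' _ hk
        simp [Matrix.blockDiagonal_apply, Ne.symm hk]
      · intro h
        exact absurd (Finset.mem_univ k) h
    · intro c _ hc
      apply Finset.sum_eq_zero
      intro k' _
      simp [UU, hc]
    · intro h
      exact absurd (Finset.mem_univ b) h
  have h8 : YY κ y * (SS * (SS * UU κ J)) = ∑ i, (y i : ℂ) • (SJ Q be i z * SJ Q be i z) := by
    ext a b
    rw [← Matrix.mul_assoc SS SS, h7, YY_mul_apply, Matrix.sum_apply]
    apply Finset.sum_congr rfl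
    intro k _
    rw [hgen, Matrix.smul_apply, smul_eq_mul]
  have h9 : EE κ j * R * (SS * UU κ J) = SJ Q be j z * SJ Q be j z +
      SJ Q be j z * T * ∑ i, (y i : ℂ) • (SJ Q be i z * SJ Q be i z) := by
    rw [h3, Matrix.mul_add, Matrix.add_mul, ES]
    congr 1
    · rw [Matrix.mul_assoc (SJ Q be j z), ESU]
    · have e1 : EE κ j * (SS * UU κ J * T * YY κ y * SS) * (SS * UU κ J) =
          EE κ j * (SS * UU κ J) * T * (YY κ y * (SS * (SS * UU κ J))) := by
        simp only [Matrix.mul_assoc]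
      rw [e1, h8, ESU]
  rw [h9, Matrix.mul_add, Matrix.trace_add, Matrix.trace_mul_comm T, Matrix.trace_mul_comm T]

/-- (A2). -/
theorem tr_comm (S T : Matrix κ κ ℂ) :
    2 * (S * T * (S * T)).trace - 2 * (T * (S * S) * T).trace =
      ((S * T - T * S) * (S * T - T * S)).trace := by
  have e1 : (T * S * (T * S)).trace = (S * T * (S * T)).trace := by
    rw [Matrix.mul_assoc, Matrix.trace_mul_comm]
    simp only [Matrix.mul_assoc]
  have e2 : (S * T * (T * S)).trace = (T * (S * S) * T).trace := by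
    rw [Matrix.trace_mul_comm (S * T)]
    simp only [Matrix.mul_assoc]
  have e3 : (T * S * (S * T)).trace = (T * (S * S) * T).trace := by
    simp only [Matrix.mul_assoc]
  rw [Matrix.sub_mul, Matrix.mul_sub, Matrix.mul_sub, Matrix.trace_sub, Matrix.trace_sub,
    Matrix.trace_sub, e1, e2, e3]
  ring

end point

/-- The resolvent is continuous on the circle. -/
theorem res_cont {m : Type} [Fintype m] [DecidableEq m] {A : Matrix m m ℂ} {s : Set ℂ}
    (h : ∀ z ∈ s, (z • (1 : Matrix m m ℂ) - A).det ≠ 0) :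
    ContinuousOn (fun z : ℂ => (z • (1 : Matrix m m ℂ) - A)⁻¹) s := by
  intro z hz
  have h1 := RR_cont A 0 (x := 0) (z := z) (by simpa using h z hz)
  have h2 : ContinuousAt (fun w : ℂ => RR A 0 0 w) z :=
    ContinuousAt.comp (f := fun w : ℂ => ((0 : ℝ), w))
      (g := fun q : ℝ × ℂ => RR A 0 q.1 q.2) h1 (by fun_prop)
  have h3 : (fun w : ℂ => RR A 0 0 w) = fun z : ℂ => (z • (1 : Matrix m m ℂ) - A)⁻¹ := by
    funext w
    simp [RR]
  rw [h3] at h2
  exact h2.continuousWithinAt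

/-- **The algebra of the integrand.** (A4) -/
theorem block_ALG {P Q : Matrix κ κ ℂ} {be y : J → ℝ} {p c ρ : ℝ} (hρ : 0 < ρ) (hc : ρ < c)
    (j₀ : J) (hbe : be j₀ = 0) (hP : P.det ≠ 0)
    (hS : ∀ z ∈ sphere (c : ℂ) ρ, ∀ j, (z • (1 : Matrix κ κ ℂ) - (be j : ℂ) • Q).det ≠ 0)
    (hX : ∀ z ∈ sphere (c : ℂ) ρ, (z • (1 : Matrix (κ × J) (κ × J) ℂ) - XX P Q be y).det ≠ 0) :
    (∮ z in C(c, ρ), z ^ ((p - 1 : ℝ) : ℂ) * ∑ j, (y j : ℂ) *
        ((z • (1 : Matrix (κ × J) (κ × J) ℂ) - XX P Q be y)⁻¹ * M1 P j *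
          ((z • (1 : Matrix (κ × J) (κ × J) ℂ) - XX P Q be y)⁻¹ * M1 P j)).trace) -
      ((p - 1 : ℝ) : ℂ) * (∮ z in C(c, ρ), z ^ ((p - 1 : ℝ) : ℂ) *
        ((z • (1 : Matrix (κ × J) (κ × J) ℂ) - XX P Q be y)⁻¹ * M1 P j₀).trace) =
      (1 / 2) * ∮ z in C(c, ρ), z ^ ((p - 1 : ℝ) : ℂ) * ∑ j, (y j : ℂ) *
        ((SJ Q be j z * tau P Q be y z - tau P Q be y z * SJ Q be j z) *
          (SJ Q be j z * tau P Q be y z - tau P Q be y z * SJ Q be j z)).trace := by
  have hz0 : ∀ z ∈ sphere (c : ℂ) ρ, z ≠ 0 := by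
    intro z hz h0
    have h1 := re_pos_of_mem hc hz
    rw [h0, Complex.zero_re] at h1
    exact lt_irrefl _ h1
  have hRc := res_cont hX
  -- parts
  have hparts := circle_parts hρ hc (XX P Q be y) (M1 P j₀) p 0 (by
    intro z hz
    simpa using hX z hz)
  have hRR : ∀ z : ℂ, RR (XX P Q be y) (M1 P j₀) 0 z =
      (z • (1 : Matrix (κ × J) (κ × J) ℂ) - XX P Q be y)⁻¹ := by
    intro z
    simp [RR]
  simp only [hRR] at hparts
  set R : ℂ → Matrix (κ × J) (κ × J) ℂ :=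
    fun z => (z • (1 : Matrix (κ × J) (κ × J) ℂ) - XX P Q be y)⁻¹ with hR
  have i1 : CircleIntegrable (fun z : ℂ => z ^ ((p - 1 : ℝ) : ℂ) * (R z * M1 P j₀).trace) c ρ := by
    apply ContinuousOn.circleIntegrable hρ.le
    have h3 : Continuous fun A : Matrix (κ × J) (κ × J) ℂ => (A * M1 P j₀).trace := by fun_prop
    exact (cont_cpow hc _).mul (h3.comp_continuousOn hRc)
  have i2 : CircleIntegrable (fun z : ℂ => z ^ (p : ℂ) *
      (R z * M1 P j₀ * (R z * 1)).trace) c ρ := by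
    apply ContinuousOn.circleIntegrable hρ.le
    have h3 : Continuous fun A : Matrix (κ × J) (κ × J) ℂ =>
      (A * M1 P j₀ * (A * (1 : Matrix (κ × J) (κ × J) ℂ))).trace := by fun_prop
    exact (cont_cpow hc _).mul (h3.comp_continuousOn hRc)
  have i3 : CircleIntegrable (fun z : ℂ => z ^ ((p - 1 : ℝ) : ℂ) * ∑ j, (y j : ℂ) *
      (R z * M1 P j * (R z * M1 P j)).trace) c ρ := by
    apply ContinuousOn.circleIntegrable hρ.le
    have h3 : Continuous fun A : Matrix (κ × J) (κ × J) ℂ =>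
      ∑ j, (y j : ℂ) * (A * M1 P j * (A * M1 P j)).trace := by fun_prop
    exact (cont_cpow hc _).mul (h3.comp_continuousOn hRc)
  have e1 : ((p - 1 : ℝ) : ℂ) * (∮ z in C(c, ρ), z ^ ((p - 1 : ℝ) : ℂ) * (R z * M1 P j₀).trace) =
      ∮ z in C(c, ρ), (z ^ (p : ℂ) * (R z * M1 P j₀ * (R z * 1)).trace -
        z ^ ((p - 1 : ℝ) : ℂ) * (R z * M1 P j₀).trace) := by
    rw [circleIntegral.integral_sub i2 i1]
    have h3 : (∮ z in C(c, ρ), z ^ (p : ℂ) * (R z * M1 P j₀ * (R z * 1)).trace) =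
      p * ∮ z in C(c, ρ), z ^ ((p - 1 : ℝ) : ℂ) * (R z * M1 P j₀).trace := hparts
    rw [h3]
    push_cast
    ring
  have i4 : CircleIntegrable (fun z : ℂ => z ^ (p : ℂ) * (R z * M1 P j₀ * (R z * 1)).trace -
      z ^ ((p - 1 : ℝ) : ℂ) * (R z * M1 P j₀).trace) c ρ := i2.sub i1
  rw [e1]
  refine (circleIntegral.integral_sub i3 i4).symm.trans ?_
  rw [← circleIntegral.integral_const_mul]
  refine circleIntegral.integral_congr hρ.le fun z hz => ?_
  have hzz := hz0 z hz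
  have hSz := hS z hz
  have hXz := hX z hz
  beta_reduce
  have hpow : z ^ (p : ℂ) = z ^ ((p - 1 : ℝ) : ℂ) * z := by
    have h3 : (p : ℂ) = ((p - 1 : ℝ) : ℂ) + 1 := by
      push_cast
      ring
    rw [h3, Complex.cpow_add _ _ hzz, Complex.cpow_one]
  have hS0 : SJ Q be j₀ z = z⁻¹ • (1 : Matrix κ κ ℂ) := by
    unfold SJ
    rw [hbe, Complex.ofReal_zero, zero_smul, sub_zero]
    apply Matrix.inv_eq_right_inv
    rw [Matrix.smul_mul, Matrix.mul_smul, Matrix.one_mul, smul_smul, mul_inv_cancel₀ hzz, one_smul]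
  rw [hpow]
  have f1 : (R z * M1 P j₀ * (R z * 1)).trace = _ := tr_RRM hP hSz hXz j₀
  have f2 : (R z * M1 P j₀).trace = _ := tr_RM hP hSz hXz j₀
  have f3 : ∀ j, (R z * M1 P j * (R z * M1 P j)).trace = _ := fun j => tr_RMRM hP hSz hXz j
  set T := tau P Q be y z with hT
  have f4 : z * (R z * M1 P j₀ * (R z * 1)).trace - (R z * M1 P j₀).trace =
      ∑ i, (y i : ℂ) * (T * (SJ Q be i z * SJ Q be i z) * T).trace := by
    rw [f1, f2, hS0]
    simp only [Matrix.smul_mul, Matrix.mul_smul, Matrix.one_mul, Matrix.trace_smul, smul_eq_mul,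
      Matrix.mul_sum, Matrix.sum_mul, Matrix.trace_sum]
    have f41 : ∀ g : J → ℂ, (∑ x, (y x : ℂ) * (z⁻¹ * g x)) = z⁻¹ * ∑ x, (y x : ℂ) * g x := by
      intro g
      rw [Finset.mul_sum]
      apply Finset.sum_congr rfl
      intro x _
      ring
    simp only [f41]
    field_simp
    ring
  have f5 : ∀ j, (R z * M1 P j * (R z * M1 P j)).trace =
      (T * (SJ Q be j z * SJ Q be j z) * T).trace +
      (1 / 2) * ((SJ Q be j z * T - T * SJ Q be j z) *
          (SJ Q be j z * T - T * SJ Q be j z)).trace := by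
    intro j
    rw [f3 j, ← tr_comm]
    ring
  have f6 : ∑ j, (y j : ℂ) * (R z * M1 P j * (R z * M1 P j)).trace =
      ∑ i, (y i : ℂ) * (T * (SJ Q be i z * SJ Q be i z) * T).trace +
      (1 / 2) * ∑ j, (y j : ℂ) * ((SJ Q be j z * T - T * SJ Q be j z) *
          (SJ Q be j z * T - T * SJ Q be j z)).trace := by
    rw [Finset.mul_sum, ← Finset.sum_add_distrib]
    apply Finset.sum_congr rfl
    intro j _
    rw [f5 j]
    ring
  rw [f6, ← f4]
  ring

end Pool.Agent.OPSA
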