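import Pool.Agent.Lib_helper74.OPS.Alg
import Pool.Agent.Lib_helper69.OPS.Defs

/-!
# ONE PURE STATE: the algebra of the integrand, in helper69's notation
-/

set_option autoImplicit false

open scoped BigOperators Topology Real Kronecker
open MeasureTheory Set Matrix Filter Metric

namespace Pool.Agent.OPSA

variable {m ι : Type} [Fintype m] [DecidableEq m] [Fintype ι] [DecidableEq ι]

theorem XX_eq_XA (P Q : Matrix m m ℂ) (be y : ι → ℝ) :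
    XX P Q be y = Pool.Agent.OPS.XA P Q be y := rfl

theorem SJ_eq_SS (Q : Matrix m m ℂ) (be : ι → ℝ) (j : ι) (z : ℂ) :
    SJ Q be j z = Pool.Agent.OPS.SS Q (be j) z := rfl

theorem tau_eq (P Q : Matrix m m ℂ) (be y : ι → ℝ) (z : ℂ) :
    tau P Q be y z = Pool.Agent.OPS.tau P Q be y z := rfl

/-- The algebra of the integrand of `∑ y_j ∂_j² - (p-1) ∂_{j0}`. -/
theorem alg_FF {P Q : Matrix m m ℂ} {be y : ι → ℝ} {p c ρ : ℝ} (hρ : 0 < ρ) (hc : ρ < c)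
    (j₀ : ι) (hbe : be j₀ = 0) (hP : P.det ≠ 0)
    (hS : ∀ z ∈ sphere (c : ℂ) ρ, ∀ j, (z • (1 : Matrix m m ℂ) - (be j : ℂ) • Q).det ≠ 0)
    (hX : ∀ z ∈ sphere (c : ℂ) ρ,
      (z • (1 : Matrix (m × ι) (m × ι) ℂ) - Pool.Agent.OPS.XA P Q be y).det ≠ 0) :
    (∮ z in C(c, ρ), z ^ ((p - 1 : ℝ) : ℂ) * ∑ j, (y j : ℂ) *
        ((z • (1 : Matrix (m × ι) (m × ι) ℂ) - Pool.Agent.OPS.XA P Q be y)⁻¹ * M1 P j *
          ((z • (1 : Matrix (m × ι) (m × ι) ℂ) - Pool.Agent.OPS.XA P Q be y)⁻¹ * M1 P j)).trace) -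
      ((p - 1 : ℝ) : ℂ) * (∮ z in C(c, ρ), z ^ ((p - 1 : ℝ) : ℂ) *
        ((z • (1 : Matrix (m × ι) (m × ι) ℂ) - Pool.Agent.OPS.XA P Q be y)⁻¹ *
          M1 P j₀).trace) =
      -(1 / 2) * ∮ z in C(c, ρ), z ^ ((p - 1 : ℝ) : ℂ) * Pool.Agent.OPS.FF P Q be y z := by
  have h := block_ALG (P := P) (Q := Q) (be := be) (y := y) (p := p) hρ hc j₀ hbe hP hS hX
  rw [XX_eq_XA] at h
  rw [h]
  have h2 : (∮ z in C(c, ρ), z ^ ((p - 1 : ℝ) : ℂ) * Pool.Agent.OPS.FF P Q be y z) =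
      ∮ z in C(c, ρ), (-1 : ℂ) * (z ^ ((p - 1 : ℝ) : ℂ) * ∑ j, (y j : ℂ) *
        ((SJ Q be j z * tau P Q be y z - tau P Q be y z * SJ Q be j z) *
          (SJ Q be j z * tau P Q be y z - tau P Q be y z * SJ Q be j z)).trace) := by
    refine circleIntegral.integral_congr hρ.le fun z _ => ?_
    simp only [Pool.Agent.OPS.FF, SJ_eq_SS, tau_eq]
    rw [neg_one_mul, ← mul_neg]
    congr 1
    rw [← Finset.sum_neg_distrib]
    apply Finset.sum_congr rfl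
    intro j _
    ring
  rw [h2, circleIntegral.integral_const_mul]
  ring

end Pool.Agent.OPSA
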