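import Pool.Agent.Lib_helper88.OPS.Circ0

/-!
# MP_859019, one pure state: the spectrum of `P ⊗ φφᵀ + Q ⊗ diag β` for positive definite `P, Q`
-/

set_option autoImplicit false
set_option linter.unusedSectionVars false

open scoped BigOperators ComplexOrder Kronecker MatrixOrder Topology Real
open Set Matrix Filter

namespace Pool.Agent.Lib_helper74.OPS

open Pool.Agent.OPS Pool.Agent.Lib_helper88.OPS Pool.Agent.RC

variable {m ι : Type} [Fintype m] [DecidableEq m] [Fintype ι] [DecidableEq ι]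

theorem XX_mulVec_gen (P Q : Matrix m m ℂ) (be y : ι → ℝ) (v : m × ι → ℂ) (a : m) (j : ι) :
    (XX P Q be y *ᵥ v) (a, j) =
      ((√(y j) : ℝ) : ℂ) * (P *ᵥ sv y v) a + (be j : ℂ) * (Q *ᵥ fun b => v (b, j)) a := by
  have h : (XX P Q be y *ᵥ v) (a, j) =
      (∑ b, ∑ i, P a b * (((√(y j) * √(y i) : ℝ) : ℂ)) * v (b, i)) +
      ∑ b, ∑ i, (Q a b) * (if j = i then (be j : ℂ) else 0) * v (b, i) := by
    rw [← Finset.sum_add_distrib]
    simp only [Matrix.mulVec, dotProduct, Fintype.sum_prod_type, XX, Matrix.add_apply,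
      Matrix.kroneckerMap_apply, phiM, Matrix.of_apply,
      Matrix.diagonal_apply]
    refine Finset.sum_congr rfl fun b _ => ?_
    rw [← Finset.sum_add_distrib]
    refine Finset.sum_congr rfl fun i _ => ?_
    ring
  rw [h]
  congr 1
  · simp only [Matrix.mulVec, dotProduct, sv, Finset.mul_sum]
    refine Finset.sum_congr rfl fun b _ => Finset.sum_congr rfl fun i _ => ?_
    push_cast
    ring
  · simp only [Matrix.mulVec, dotProduct, Finset.mul_sum]
    refine Finset.sum_congr rfl fun b _ => ?_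
    rw [Finset.sum_eq_single j]
    · rw [if_pos rfl]; ring
    · intro i _ hi
      rw [if_neg (Ne.symm hi)]; ring
    · intro hj; exact absurd (Finset.mem_univ j) hj

theorem quad_gen (P Q : Matrix m m ℂ) (be y : ι → ℝ) (v : m × ι → ℂ) :
    star v ⬝ᵥ (XX P Q be y *ᵥ v) =
      star (sv y v) ⬝ᵥ (P *ᵥ sv y v) +
        ∑ j, (be j : ℂ) * (star (fun b => v (b, j)) ⬝ᵥ (Q *ᵥ fun b => v (b, j))) := by
  have h : star v ⬝ᵥ (XX P Q be y *ᵥ v) =
      (∑ a, ∑ j, star (v (a, j)) * (((√(y j) : ℝ) : ℂ) * (P *ᵥ sv y v) a)) +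
      ∑ j, ∑ a, star (v (a, j)) * ((be j : ℂ) * (Q *ᵥ fun b => v (b, j)) a) := by
    rw [Finset.sum_comm (s := (Finset.univ : Finset ι)), ← Finset.sum_add_distrib]
    simp only [dotProduct, Fintype.sum_prod_type]
    refine Finset.sum_congr rfl fun a _ => ?_
    rw [← Finset.sum_add_distrib]
    refine Finset.sum_congr rfl fun j _ => ?_
    rw [XX_mulVec_gen, Pi.star_apply]
    ring
  rw [h]
  congr 1
  · simp only [dotProduct]
    refine Finset.sum_congr rfl fun a _ => ?_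
    rw [Pi.star_apply]
    simp only [sv, star_sum, Finset.sum_mul]
    refine Finset.sum_congr rfl fun j _ => ?_
    rw [star_mul']
    have : star (((√(y j) : ℝ) : ℂ)) = ((√(y j) : ℝ) : ℂ) := by
      simp [Complex.conj_ofReal]
    rw [this]
    ring
  · refine Finset.sum_congr rfl fun j _ => ?_
    simp only [dotProduct, Finset.mul_sum, Pi.star_apply]
    refine Finset.sum_congr rfl fun a _ => ?_
    ring

theorem XX_pos {P Q : Matrix m m ℂ} (hP : P.PosDef) (hQ : Q.PosDef) {be : ι → ℝ} {j0 : ι}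
    (hb0 : be j0 = 0) (hb : ∀ j, j ≠ j0 → 0 < be j) {y : ι → ℝ} (hy : ∀ j, 0 < y j)
    (v : m × ι → ℂ) (hv : v ≠ 0) : 0 < (star v ⬝ᵥ (XX P Q be y *ᵥ v)).re := by
  rw [quad_gen, Complex.add_re, Complex.re_sum]
  have h1 : 0 ≤ (star (sv y v) ⬝ᵥ (P *ᵥ sv y v)).re := hP.posSemidef.re_dotProduct_nonneg _
  have e2 : ∀ j, ((be j : ℂ) * (star (fun b => v (b, j)) ⬝ᵥ (Q *ᵥ fun b => v (b, j)))).re =
      be j * (star (fun b => v (b, j)) ⬝ᵥ (Q *ᵥ fun b => v (b, j))).re := by
    intro j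
    rw [Complex.re_ofReal_mul]
  have hb' : ∀ j, 0 ≤ be j := by
    intro j
    by_cases hj : j = j0
    · rw [hj, hb0]
    · exact (hb j hj).le
  have h2 : ∀ j ∈ (Finset.univ : Finset ι),
      0 ≤ ((be j : ℂ) * (star (fun b => v (b, j)) ⬝ᵥ (Q *ᵥ fun b => v (b, j)))).re := by
    intro j _
    rw [e2]
    exact mul_nonneg (hb' j) (hQ.posSemidef.re_dotProduct_nonneg _)
  by_cases hall : ∀ j, j ≠ j0 → (fun b => v (b, j)) = 0
  · have h3 : sv y v ≠ 0 := by
      intro h0
      apply hv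
      ext ⟨b, i⟩
      by_cases hi : i = j0
      · subst hi
        have h4 := congrFun h0 b
        have h5 : sv y v b = ((√(y i) : ℝ) : ℂ) * v (b, i) := by
          unfold sv
          rw [Finset.sum_eq_single i]
          · intro j _ hj
            have := congrFun (hall j hj) b
            simp only [Pi.zero_apply] at this
            rw [this, mul_zero]
          · intro h; exact absurd (Finset.mem_univ _) h
        rw [h5, Pi.zero_apply] at h4
        rcases mul_eq_zero.1 h4 with h6 | h6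
        · exfalso
          have h7 : (√(y i) : ℝ) = 0 := by exact_mod_cast h6
          exact (Real.sqrt_pos.2 (hy i)).ne' h7
        · exact h6
      · have := congrFun (hall i hi) b
        simpa using this
    have h4 : 0 < (star (sv y v) ⬝ᵥ (P *ᵥ sv y v)).re := hP.re_dotProduct_pos h3
    exact add_pos_of_pos_of_nonneg h4 (Finset.sum_nonneg h2)
  · push Not at hall
    obtain ⟨j, hj, hvj⟩ := hall
    refine add_pos_of_nonneg_of_pos h1 (Finset.sum_pos' h2 ⟨j, Finset.mem_univ j, ?_⟩)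
    rw [e2]
    exact mul_pos (hb j hj) (hQ.re_dotProduct_pos hvj)

/-- a positive quadratic form is bounded below on the sphere -/
theorem exists_lower {n : Type} [Fintype n] (A : Matrix n n ℂ)
    (hA : ∀ v : n → ℂ, v ≠ 0 → 0 < (star v ⬝ᵥ (A *ᵥ v)).re) :
    ∃ a : ℝ, 0 < a ∧ ∀ v : n → ℂ, ∑ p, ‖v p‖ ^ 2 = 1 → a ≤ (star v ⬝ᵥ (A *ᵥ v)).re := by
  set S : Set (n → ℂ) := {v | ∑ p, ‖v p‖ ^ 2 = 1} with hS
  have hcl : IsClosed S := by
    apply isClosed_eq _ continuous_const
    exact continuous_finsetSum _ fun p _ => ((continuous_apply p).norm).pow 2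
  have hbd : Bornology.IsBounded S := by
    refine (Metric.isBounded_closedBall (x := (0 : n → ℂ)) (r := 1)).subset fun v hv => ?_
    rw [mem_closedBall_zero_iff, pi_norm_le_iff_of_nonneg zero_le_one]
    intro p
    have h1 : ‖v p‖ ^ 2 ≤ ∑ p, ‖v p‖ ^ 2 :=
      Finset.single_le_sum (f := fun p => ‖v p‖ ^ 2) (fun _ _ => by positivity) (Finset.mem_univ p)
    rw [hv] at h1
    nlinarith [norm_nonneg (v p)]
  have hK : IsCompact S := Metric.isCompact_of_isClosed_isBounded hcl hbd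
  rcases S.eq_empty_or_nonempty with h0 | hne
  · refine ⟨1, one_pos, fun v hv => ?_⟩
    have : v ∈ S := hv
    rw [h0] at this
    exact absurd this (Set.notMem_empty v)
  · have hc : Continuous fun v : n → ℂ => (star v ⬝ᵥ (A *ᵥ v)).re := by
      refine Complex.continuous_re.comp ?_
      simp only [dotProduct, Matrix.mulVec, Pi.star_apply]
      refine continuous_finsetSum _ fun p _ => ?_
      refine (continuous_star.comp (continuous_apply p)).mul ?_
      exact continuous_finsetSum _ fun q _ => continuous_const.mul (continuous_apply q)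
    obtain ⟨v0, hv0, hmin⟩ := hK.exists_isMinOn hne hc.continuousOn
    refine ⟨(star v0 ⬝ᵥ (A *ᵥ v0)).re, hA v0 ?_, fun v hv => hmin hv⟩
    intro h
    have h1 : ∑ p, ‖v0 p‖ ^ 2 = 1 := hv0
    rw [h] at h1
    simp at h1

theorem entries_close (P Q : Matrix m m ℂ) (be y : ι → ℝ) {ε : ℝ} (hε : 0 < ε) :
    ∀ᶠ y' in 𝓝 y, ∑ p, ∑ q, ‖(XX P Q be y' - XX P Q be y) p q‖ < ε := by
  have hcont : Continuous fun y' : ι → ℝ => ∑ p, ∑ q, ‖(XX P Q be y' - XX P Q be y) p q‖ := by
    refine continuous_finsetSum _ fun p _ => continuous_finsetSum _ fun q _ => ?_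
    refine Continuous.norm ?_
    simp only [XX, Matrix.sub_apply, Matrix.add_apply, Matrix.kroneckerMap_apply, phiM,
      Matrix.of_apply]
    refine Continuous.sub ?_ continuous_const
    refine Continuous.add ?_ continuous_const
    refine continuous_const.mul ?_
    refine Complex.continuous_ofReal.comp ?_
    exact (Real.continuous_sqrt.comp (continuous_apply _)).mul
      (Real.continuous_sqrt.comp (continuous_apply _))
  refine hcont.continuousAt.eventually (gt_mem_nhds ?_)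
  simpa using hε

theorem ev_bounds {n : Type} [Fintype n] [DecidableEq n] {X : Matrix n n ℂ} (hX : X.IsHermitian)
    {a b : ℝ} (h : ∀ v : n → ℂ, ∑ p, ‖v p‖ ^ 2 = 1 →
      a ≤ (star v ⬝ᵥ (X *ᵥ v)).re ∧ (star v ⬝ᵥ (X *ᵥ v)).re ≤ b) (i : n) :
    a ≤ hX.eigenvalues i ∧ hX.eigenvalues i ≤ b := by
  set v : n → ℂ := ⇑(hX.eigenvectorBasis i) with hv
  have hXv : X *ᵥ v = hX.eigenvalues i • v := hX.mulVec_eigenvectorBasis i
  have hn : ∑ p, ‖v p‖ ^ 2 = 1 := by
    have h1 := hX.eigenvectorBasis.norm_eq_one i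
    have h2 := EuclideanSpace.norm_sq_eq (hX.eigenvectorBasis i)
    rw [h1] at h2
    rw [← h2]
    norm_num
  have hvv : star v ⬝ᵥ v = 1 := by
    simp only [dotProduct, Pi.star_apply]
    have : ∀ p, star (v p) * v p = ((‖v p‖ ^ 2 : ℝ) : ℂ) := by
      intro p
      rw [Complex.star_def, Complex.conj_mul']
      push_cast
      ring
    simp only [this]
    rw [← Complex.ofReal_sum, hn, Complex.ofReal_one]
  have hq : (star v ⬝ᵥ (X *ᵥ v)).re = hX.eigenvalues i := by
    rw [hXv, dotProduct_smul, hvv]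
    simp
  have := h v hn
  rwa [hq] at this

/-- all eigenvalues stay in `[a, b]`, locally uniformly -/
theorem spec_p {P Q : Matrix m m ℂ} (hP : P.PosDef) (hQ : Q.PosDef) (be : ι → ℝ) (j0 : ι)
    (hb0 : be j0 = 0) (hb : ∀ j, j ≠ j0 → 0 < be j) (y : ι → ℝ) (hy : ∀ j, 0 < y j) :
    ∃ a b : ℝ, 0 < a ∧ ∀ᶠ y' in 𝓝 y, ∀ hX : (XX P Q be y').IsHermitian, ∀ i,
        a ≤ hX.eigenvalues i ∧ hX.eigenvalues i ≤ b := by
  obtain ⟨a, ha, h⟩ := exists_lower (XX P Q be y) (fun v hv => XX_pos hP hQ hb0 hb hy v hv)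
  obtain ⟨b, hup⟩ := upper P Q be y
  refine ⟨a / 2, b, by linarith, ?_⟩
  filter_upwards [entries_close P Q be y (half_pos ha), hup] with y' h1 h2 hX i
  refine ev_bounds hX (fun v hv => ⟨?_, ?_⟩) i
  · have h3 := h v hv
    have h4 := quad_le (XX P Q be y' - XX P Q be y) v
    rw [hv, mul_one, Matrix.sub_mulVec, dotProduct_sub] at h4
    have h5 := Complex.abs_re_le_norm
      (star v ⬝ᵥ (XX P Q be y' *ᵥ v) - star v ⬝ᵥ (XX P Q be y *ᵥ v))
    rw [Complex.sub_re] at h5
    have h6 := (abs_le.1 (h5.trans h4)).1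
    linarith
  · have h4 := quad_le (XX P Q be y') v
    rw [hv, mul_one] at h4
    have h5 := Complex.re_le_norm (star v ⬝ᵥ (XX P Q be y' *ᵥ v))
    linarith

/-- the eigenvalues of `β_j Q` -/
theorem specQ {Q : Matrix m m ℂ} (hQ : Q.PosDef) (be : ι → ℝ) (j0 : ι)
    (hb : ∀ j, j ≠ j0 → 0 < be j) :
    ∃ a b : ℝ, 0 < a ∧ ∀ hQ' : Q.IsHermitian, ∀ j, j ≠ j0 → ∀ i,
        a ≤ be j * hQ'.eigenvalues i ∧ be j * hQ'.eigenvalues i ≤ b := by
  have key : ∀ T : Finset (ι × m), (∀ t ∈ T, t.1 ≠ j0) → ∃ a b : ℝ, 0 < a ∧ ∀ t ∈ T,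
      a ≤ be t.1 * hQ.isHermitian.eigenvalues t.2 ∧ be t.1 * hQ.isHermitian.eigenvalues t.2 ≤ b := by
    intro T
    induction T using Finset.induction_on with
    | empty => exact fun _ => ⟨1, 1, one_pos, fun t ht => absurd ht (Finset.notMem_empty t)⟩
    | insert t T _ ih =>
      intro h
      obtain ⟨a, b, ha, hab⟩ := ih (fun s hs => h s (Finset.mem_insert_of_mem hs))
      have ht : 0 < be t.1 * hQ.isHermitian.eigenvalues t.2 :=
        mul_pos (hb _ (h t (Finset.mem_insert_self _ _))) (hQ.eigenvalues_pos _)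
      refine ⟨min a (be t.1 * hQ.isHermitian.eigenvalues t.2),
        max b (be t.1 * hQ.isHermitian.eigenvalues t.2), lt_min ha ht, fun s hs => ?_⟩
      rcases Finset.mem_insert.1 hs with rfl | hs
      · exact ⟨min_le_right _ _, le_max_right _ _⟩
      · exact ⟨(min_le_left _ _).trans (hab s hs).1, (hab s hs).2.trans (le_max_left _ _)⟩
  obtain ⟨a, b, ha, hab⟩ := key (Finset.univ.filter fun t => t.1 ≠ j0) (by
    intro t ht
    simpa using ht)
  refine ⟨a, b, ha, fun hQ' j hj i => ?_⟩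
  exact hab (j, i) (by simpa using hj)

theorem det_smul_ne {Q : Matrix m m ℂ} (hQ : Q.IsHermitian) {b c ρ : ℝ} (hρc : ρ < c)
    (h : b = 0 ∨ ∀ i, |b * hQ.eigenvalues i - c| < ρ) {z : ℂ} (hz : z ∈ Metric.sphere (c : ℂ) ρ) :
    (z • (1 : Matrix m m ℂ) - (b : ℂ) • Q).det ≠ 0 := by
  have hz0 : z ≠ 0 := by
    intro h0
    rw [h0, mem_sphere_iff_norm, zero_sub, norm_neg, Complex.norm_real, Real.norm_eq_abs] at hz
    have := le_abs_self c
    linarith
  rcases h with h | h
  · rw [h, Complex.ofReal_zero, zero_smul, sub_zero, Matrix.det_smul, Matrix.det_one, mul_one]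
    exact pow_ne_zero _ hz0
  · intro h0
    obtain ⟨w, hw0, hw⟩ := Matrix.exists_mulVec_eq_zero_iff.mpr h0
    have hU := hQ.spectral_theorem
    by_cases hb : b = 0
    · rw [hb, Complex.ofReal_zero, zero_smul, sub_zero, Matrix.smul_mulVec, Matrix.one_mulVec] at hw
      exact hw0 ((smul_eq_zero.1 hw).resolve_left hz0)
    · have hbc : (b : ℂ) ≠ 0 := by exact_mod_cast hb
      have hdet : ((z / b) • (1 : Matrix m m ℂ) - Q).det ≠ 0 :=
        (Pool.Agent.Lib_helper19.QS.resolvent_spec hQ (z := z / b) (by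
          intro i hi
          have h1 : z = ((b * hQ.eigenvalues i : ℝ) : ℂ) := by
            push_cast
            rw [← hi]
            field_simp
          have h2 := h i
          rw [h1, mem_sphere_iff_norm, ← Complex.ofReal_sub, Complex.norm_real,
            Real.norm_eq_abs] at hz
          exact absurd hz h2.ne)).1
      apply hdet
      have e : z • (1 : Matrix m m ℂ) - (b : ℂ) • Q = (b : ℂ) • ((z / b) • (1 : Matrix m m ℂ) - Q) := by
        rw [smul_sub, smul_smul, mul_div_cancel₀ _ hbc]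
      rw [e, Matrix.det_smul] at h0
      exact (mul_eq_zero.1 h0).resolve_left (pow_ne_zero _ hbc)

/-- the PosDef instance of the hypotheses of the derivative block -/
theorem der_hyp_pd {P Q : Matrix m m ℂ} (hP : P.PosDef) (hQ : Q.PosDef) (be : ι → ℝ) (j0 : ι)
    (hb0 : be j0 = 0) (hb : ∀ j, j ≠ j0 → 0 < be j) (y : ι → ℝ) (hy : ∀ j, 0 < y j) (p : ℝ) :
    ∃ δ M : ℝ, 0 < δ ∧ ∀ c ρ : ℝ, 0 < ρ → ρ < c → c - ρ < δ → M < c + ρ →
      (∀ hX : (XX P Q be y).IsHermitian, ∀ i, |hX.eigenvalues i - c| < ρ) ∧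
      (∀ hQ' : Q.IsHermitian, ∀ j, j ≠ j0 → ∀ i, |be j * hQ'.eigenvalues i - c| < ρ) ∧
      (∀ z ∈ Metric.sphere (c : ℂ) ρ, ∀ j,
        (z • (1 : Matrix m m ℂ) - (be j : ℂ) • Q).det ≠ 0) ∧
      ∀ᶠ y' in 𝓝 y,
        (∀ z ∈ Metric.sphere (c : ℂ) ρ,
          (z • (1 : Matrix (m × ι) (m × ι) ℂ) - XX P Q be y').det ≠ 0) ∧
        ((hPQ p P Q be y' : ℝ) : ℂ) =
          (2 * π * Complex.I : ℂ)⁻¹ * ∮ z in C((c : ℂ), ρ), z ^ (p : ℂ) *
            ((z • (1 : Matrix (m × ι) (m × ι) ℂ) - XX P Q be y')⁻¹).trace := by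
  obtain ⟨a, b, ha, h⟩ := spec_p hP hQ be j0 hb0 hb y hy
  obtain ⟨a', b', ha', h'⟩ := specQ hQ be j0 hb
  refine ⟨min a a', max b b', lt_min ha ha', fun c ρ hρ hρc h1 h2 => ?_⟩
  have h1a : c - ρ < a := h1.trans_le (min_le_left _ _)
  have h1b : c - ρ < a' := h1.trans_le (min_le_right _ _)
  have h2a : b < c + ρ := (le_max_left _ _).trans_lt h2
  have h2b : b' < c + ρ := (le_max_right _ _).trans_lt h2
  have hQc : ∀ hQ' : Q.IsHermitian, ∀ j, j ≠ j0 → ∀ i, |be j * hQ'.eigenvalues i - c| < ρ := by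
    intro hQ' j hj i
    obtain ⟨h3, h4⟩ := h' hQ' j hj i
    rw [abs_lt]
    constructor <;> linarith
  have hev : ∀ᶠ y' in 𝓝 y, ∀ hX : (XX P Q be y').IsHermitian, ∀ i,
      |hX.eigenvalues i - c| < ρ := by
    filter_upwards [h] with y' hy' hX i
    obtain ⟨h3, h4⟩ := hy' hX i
    rw [abs_lt]
    constructor <;> linarith
  refine ⟨hev.self_of_nhds, hQc, fun z hz j => ?_, ?_⟩
  · refine det_smul_ne hQ.isHermitian hρc ?_ hz
    by_cases hj : j = j0
    · left
      rw [hj, hb0]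
    · right
      exact hQc hQ.isHermitian j hj
  · filter_upwards [hev] with y' hy'
    exact Pool.Agent.Lib_helper19.QS.trp (XX_herm hP.isHermitian hQ.isHermitian be y') hρ hρc
      (hy' _)

end Pool.Agent.Lib_helper74.OPS
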