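import Pool.Agent.Lib_helper74.OPS.Alg2
import Pool.Agent.Lib_helper74.OPS.SpecP

/-!
# MP_859019, one pure state: the derivatives of `h_{PQ}` as contour integrals
-/

set_option autoImplicit false
set_option linter.unusedSectionVars false

open scoped BigOperators ComplexOrder Kronecker MatrixOrder Topology Real
open MeasureTheory Set Matrix Filter Metric

namespace Pool.Agent.Lib_helper74.OPS

open Pool.Agent.OPS Pool.Agent.QB

variable {m ι : Type} [Fintype m] [DecidableEq m] [Fintype ι] [DecidableEq ι]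

/-- the first derivative -/
theorem first_der (M0 M1 : Matrix m m ℂ) (p c ρ : ℝ) (hρ : 0 < ρ) (hc : ρ < c) (h : ℝ → ℝ)
    (hh : ∀ᶠ x : ℝ in 𝓝 (0 : ℝ), (∀ z ∈ Metric.sphere (c : ℂ) ρ,
        (z • (1 : Matrix m m ℂ) - (M0 + (x : ℂ) • M1)).det ≠ 0) ∧
      ((h x : ℝ) : ℂ) = (2 * π * Complex.I : ℂ)⁻¹ * ∮ z in C(c, ρ), z ^ (p : ℂ) *
        ((z • (1 : Matrix m m ℂ) - (M0 + (x : ℂ) • M1))⁻¹).trace) :
    ∃ D : ℝ, HasDerivAt h D 0 ∧ (D : ℂ) = p * (2 * π * Complex.I : ℂ)⁻¹ * ∮ z in C(c, ρ),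
      z ^ ((p - 1 : ℝ) : ℂ) * ((z • (1 : Matrix m m ℂ) - M0)⁻¹ * M1).trace := by
  obtain ⟨ε, hε, H⟩ := Metric.eventually_nhds_iff.1 hh
  have Hd : ∀ x : ℝ, |x| < ε → ∀ z ∈ sphere (c : ℂ) ρ,
      (z • (1 : Matrix m m ℂ) - (M0 + (x : ℂ) • M1)).det ≠ 0 := by
    intro x hx
    exact (H (by rwa [Real.dist_eq, sub_zero])).1
  have Hv : ∀ x : ℝ, |x| < ε → ((h x : ℝ) : ℂ) = (2 * π * Complex.I : ℂ)⁻¹ *
      ∮ z in C(c, ρ), z ^ (p : ℂ) * (RR M0 M1 x z * 1).trace := by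
    intro x hx
    rw [(H (by rwa [Real.dist_eq, sub_zero])).2]
    simp only [RR, Matrix.mul_one]
  have hδ : 0 < ε / 2 := by linarith
  have h1 := circle_family hρ hc M0 M1 1 (p : ℂ) (x0 := 0) hδ
    (fun y hy => Hd y (by
      have : |y| ≤ ε / 2 := by simpa using hy
      linarith))
  rw [circle_parts hρ hc M0 M1 p 0 (Hd 0 (by simpa using hε))] at h1
  have h2 := h1.const_mul (2 * π * Complex.I : ℂ)⁻¹
  have hev : ∀ᶠ y : ℝ in 𝓝 (0 : ℝ), |y| < ε :=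
    (continuous_abs.continuousAt.eventually_lt continuousAt_const (by simpa using hε))
  obtain ⟨h3, h4⟩ := hasDerivAt_re (f := h) h2 (by
    filter_upwards [hev] with y hy
    exact Hv y hy)
  refine ⟨_, h3, ?_⟩
  have e : ∀ z : ℂ, RR M0 M1 0 z = (z • (1 : Matrix m m ℂ) - M0)⁻¹ := by
    intro z
    simp [RR]
  rw [h4]
  simp only [e]
  ring

theorem XA_single (P Q : Matrix m m ℂ) (be y : ι → ℝ) (j : ι) (x : ℝ) :
    XA P Q be (y + Pi.single j x) = XA P Q be y + (x : ℂ) • Pool.Agent.OPSA.M1 P j := by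
  ext ⟨a, i⟩ ⟨b, k⟩
  simp only [XA, Pool.Agent.OPSA.M1, Matrix.add_apply, Matrix.smul_apply,
    Matrix.kroneckerMap_apply, Matrix.of_apply, Pi.add_apply, smul_eq_mul]
  by_cases h : k = j
  · subst h
    rw [if_pos rfl, Pi.single_eq_same]
    push_cast
    ring
  · rw [if_neg h, Pi.single_eq_of_ne h]
    push_cast
    ring

/-- the similarity `D XA = XX D` -/
theorem simil (P Q : Matrix m m ℂ) (be : ι → ℝ) {y : ι → ℝ} (hy : ∀ j, 0 < y j) (z : ℂ) :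
    (z • (1 : Matrix (m × ι) (m × ι) ℂ) - XA P Q be y).det =
      (z • (1 : Matrix (m × ι) (m × ι) ℂ) - XX P Q be y).det ∧
    ((z • (1 : Matrix (m × ι) (m × ι) ℂ) - XA P Q be y)⁻¹).trace =
      ((z • (1 : Matrix (m × ι) (m × ι) ℂ) - XX P Q be y)⁻¹).trace := by
  set D : Matrix (m × ι) (m × ι) ℂ := Matrix.diagonal fun t => ((√(y t.2) : ℝ) : ℂ) with hD
  have hDd : D.det ≠ 0 := by
    rw [hD, Matrix.det_diagonal]
    refine Finset.prod_ne_zero_iff.2 fun t _ => ?_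
    exact_mod_cast (Real.sqrt_pos.2 (hy t.2)).ne'
  have hDu : IsUnit D.det := isUnit_iff_ne_zero.2 hDd
  have hm : D * XA P Q be y = XX P Q be y * D := by
    ext ⟨a, i⟩ ⟨b, k⟩
    rw [hD, Matrix.diagonal_mul, Matrix.mul_diagonal]
    simp only [XA, XX, phiM, Matrix.add_apply, Matrix.kroneckerMap_apply, Matrix.of_apply,
      Matrix.diagonal_apply]
    have hs : ((√(y k) : ℝ) : ℂ) * ((√(y k) : ℝ) : ℂ) = ((y k : ℝ) : ℂ) := by
      rw [← Complex.ofReal_mul, Real.mul_self_sqrt (hy k).le]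
    by_cases h : i = k
    · subst h
      rw [if_pos rfl, ← hs]
      push_cast
      ring
    · rw [if_neg h, ← hs]
      push_cast
      ring
  have hm2 : z • (1 : Matrix (m × ι) (m × ι) ℂ) - XX P Q be y =
      D * (z • (1 : Matrix (m × ι) (m × ι) ℂ) - XA P Q be y) * D⁻¹ := by
    rw [Matrix.mul_sub, hm, Matrix.sub_mul, Matrix.mul_assoc (XX P Q be y), Matrix.mul_nonsing_inv _ hDu,
      Matrix.mul_one, Matrix.mul_smul, Matrix.mul_one, Matrix.smul_mul, Matrix.mul_nonsing_inv _ hDu]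
  constructor
  · rw [hm2, Matrix.det_mul, Matrix.det_mul, mul_comm D.det, mul_assoc, ← Matrix.det_mul,
      Matrix.mul_nonsing_inv _ hDu, Matrix.det_one, mul_one]
  · rw [hm2, Matrix.mul_inv_rev, Matrix.mul_inv_rev, Matrix.nonsing_inv_nonsing_inv _ hDu,
      ← Matrix.mul_assoc, Matrix.trace_mul_comm, ← Matrix.mul_assoc,
      Matrix.nonsing_inv_mul _ hDu, Matrix.one_mul]

/-- the general derivative block -/
theorem der_of {P Q : Matrix m m ℂ} {be y : ι → ℝ} {p c ρ : ℝ} (hρ : 0 < ρ) (hρc : ρ < c)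
    (j0 : ι) (hb0 : be j0 = 0) (hy : ∀ j, 0 < y j) (hP : P.det ≠ 0)
    (hS : ∀ z ∈ Metric.sphere (c : ℂ) ρ, ∀ j, (z • (1 : Matrix m m ℂ) - (be j : ℂ) • Q).det ≠ 0)
    (hE : ∀ᶠ y' in 𝓝 y, (∀ z ∈ Metric.sphere (c : ℂ) ρ,
        (z • (1 : Matrix (m × ι) (m × ι) ℂ) - XX P Q be y').det ≠ 0) ∧
      ((hPQ p P Q be y' : ℝ) : ℂ) = (2 * π * Complex.I : ℂ)⁻¹ * ∮ z in C((c : ℂ), ρ),
        z ^ (p : ℂ) * ((z • (1 : Matrix (m × ι) (m × ι) ℂ) - XX P Q be y')⁻¹).trace) :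
    ∃ (D2 : ι → ℝ) (D1 : ℝ),
      (∀ j, C2at (fun x => hPQ p P Q be (y + Pi.single j x)) (D2 j)) ∧
      HasDerivAt (fun x => hPQ p P Q be (y + Pi.single j0 x)) D1 0 ∧
      ((∑ j, y j * D2 j - (p - 1) * D1 : ℝ) : ℂ) = -(p / 2 : ℝ) *
        ((2 * π * Complex.I : ℂ)⁻¹ *
          ∮ z in C((c : ℂ), ρ), z ^ ((p - 1 : ℝ) : ℂ) * FF P Q be y z) := by
  have hev : ∀ j, ∀ᶠ x : ℝ in 𝓝 (0 : ℝ), (∀ z ∈ Metric.sphere (c : ℂ) ρ,
        (z • (1 : Matrix (m × ι) (m × ι) ℂ) -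
          (XA P Q be y + (x : ℂ) • Pool.Agent.OPSA.M1 P j)).det ≠ 0) ∧
      ((hPQ p P Q be (y + Pi.single j x) : ℝ) : ℂ) = (2 * π * Complex.I : ℂ)⁻¹ *
        ∮ z in C((c : ℂ), ρ), z ^ (p : ℂ) * ((z • (1 : Matrix (m × ι) (m × ι) ℂ) -
          (XA P Q be y + (x : ℂ) • Pool.Agent.OPSA.M1 P j))⁻¹).trace := by
    intro j
    have hcont : Continuous fun x : ℝ => y + (Pi.single j x : ι → ℝ) := by
      refine continuous_pi fun i => ?_
      by_cases h : i = j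
      · subst h
        simp only [Pi.add_apply, Pi.single_eq_same]
        fun_prop
      · simp only [Pi.add_apply, Pi.single_eq_of_ne h]
        exact continuous_const
    have ht : Tendsto (fun x : ℝ => y + (Pi.single j x : ι → ℝ)) (𝓝 0) (𝓝 y) := by
      have := hcont.tendsto 0
      simpa using this
    have hpos : ∀ᶠ y' in 𝓝 y, ∀ i, 0 < y' i := by
      rw [eventually_all]
      intro i
      exact (continuous_apply i).continuousAt.eventually (lt_mem_nhds (hy i))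
    filter_upwards [ht.eventually hE, ht.eventually hpos] with x hx hx2
    obtain ⟨h1, h2⟩ := hx
    refine ⟨fun z hz => ?_, ?_⟩
    · rw [← XA_single, (simil P Q be hx2 z).1]
      exact h1 z hz
    · rw [h2]
      congr 1
      refine circleIntegral.integral_congr hρ.le fun z _ => ?_
      simp only [← XA_single]
      rw [(simil P Q be hx2 z).2]
  have hX : ∀ z ∈ Metric.sphere (c : ℂ) ρ,
      (z • (1 : Matrix (m × ι) (m × ι) ℂ) - XA P Q be y).det ≠ 0 := by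
    intro z hz
    have := (hev j0).self_of_nhds.1 z hz
    simpa using this
  have h2 := fun j => cim (XA P Q be y) (Pool.Agent.OPSA.M1 P j) p c ρ hρ hρc _ (hev j)
  choose D2 hD2 hD2e using h2
  obtain ⟨D1, hD1, hD1e⟩ := first_der (XA P Q be y) (Pool.Agent.OPSA.M1 P j0) p c ρ hρ hρc _ (hev j0)
  refine ⟨D2, D1, hD2, hD1, ?_⟩
  have halg := Pool.Agent.OPSA.alg_FF (P := P) (Q := Q) (be := be) (y := y) (p := p) hρ hρc j0 hb0
    hP hS hX
  have hRc := Pool.Agent.OPSA.res_cont hX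
  have hsum : (∮ z in C((c : ℂ), ρ), z ^ ((p - 1 : ℝ) : ℂ) * ∑ j, (y j : ℂ) *
        ((z • (1 : Matrix (m × ι) (m × ι) ℂ) - XA P Q be y)⁻¹ * Pool.Agent.OPSA.M1 P j *
          ((z • (1 : Matrix (m × ι) (m × ι) ℂ) - XA P Q be y)⁻¹ *
            Pool.Agent.OPSA.M1 P j)).trace) =
      ∑ j, (y j : ℂ) * ∮ z in C((c : ℂ), ρ), z ^ ((p - 1 : ℝ) : ℂ) *
        ((z • (1 : Matrix (m × ι) (m × ι) ℂ) - XA P Q be y)⁻¹ * Pool.Agent.OPSA.M1 P j *
          ((z • (1 : Matrix (m × ι) (m × ι) ℂ) - XA P Q be y)⁻¹ *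
            Pool.Agent.OPSA.M1 P j)).trace := by
    have e : ∀ j, (y j : ℂ) * (∮ z in C((c : ℂ), ρ), z ^ ((p - 1 : ℝ) : ℂ) *
        ((z • (1 : Matrix (m × ι) (m × ι) ℂ) - XA P Q be y)⁻¹ * Pool.Agent.OPSA.M1 P j *
          ((z • (1 : Matrix (m × ι) (m × ι) ℂ) - XA P Q be y)⁻¹ *
            Pool.Agent.OPSA.M1 P j)).trace) =
        ∮ z in C((c : ℂ), ρ), (y j : ℂ) * (z ^ ((p - 1 : ℝ) : ℂ) *
        ((z • (1 : Matrix (m × ι) (m × ι) ℂ) - XA P Q be y)⁻¹ * Pool.Agent.OPSA.M1 P j *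
          ((z • (1 : Matrix (m × ι) (m × ι) ℂ) - XA P Q be y)⁻¹ *
            Pool.Agent.OPSA.M1 P j)).trace) := by
      intro j
      rw [circleIntegral.integral_const_mul]
    simp only [e]
    rw [← circleIntegral.integral_fun_sum]
    · refine circleIntegral.integral_congr hρ.le fun z _ => ?_
      simp only [Finset.mul_sum]
      refine Finset.sum_congr rfl fun j _ => ?_
      ring
    · intro j _
      apply ContinuousOn.circleIntegrable hρ.le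
      have h3 : Continuous fun A : Matrix (m × ι) (m × ι) ℂ =>
        (A * Pool.Agent.OPSA.M1 P j * (A * Pool.Agent.OPSA.M1 P j)).trace := by fun_prop
      exact continuousOn_const.mul ((cont_cpow hρc _).mul (h3.comp_continuousOn hRc))
  rw [hsum] at halg
  push_cast
  simp only [hD2e]
  rw [hD1e]
  have e3 : (∑ x, (y x : ℂ) * ((p : ℂ) * (2 * π * Complex.I : ℂ)⁻¹ *
      ∮ z in C((c : ℂ), ρ), z ^ ((p - 1 : ℝ) : ℂ) *
        ((z • (1 : Matrix (m × ι) (m × ι) ℂ) - XA P Q be y)⁻¹ * Pool.Agent.OPSA.M1 P x *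
          ((z • (1 : Matrix (m × ι) (m × ι) ℂ) - XA P Q be y)⁻¹ *
            Pool.Agent.OPSA.M1 P x)).trace)) =
      (p : ℂ) * (2 * π * Complex.I : ℂ)⁻¹ * ∑ j, (y j : ℂ) * ∮ z in C((c : ℂ), ρ),
        z ^ ((p - 1 : ℝ) : ℂ) *
        ((z • (1 : Matrix (m × ι) (m × ι) ℂ) - XA P Q be y)⁻¹ * Pool.Agent.OPSA.M1 P j *
          ((z • (1 : Matrix (m × ι) (m × ι) ℂ) - XA P Q be y)⁻¹ *
            Pool.Agent.OPSA.M1 P j)).trace := by
    rw [Finset.mul_sum]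
    refine Finset.sum_congr rfl fun j _ => ?_
    ring
  rw [e3]
  have h9 := congrArg (fun t => (p : ℂ) * (2 * π * Complex.I : ℂ)⁻¹ * t) halg
  push_cast at h9 ⊢
  linear_combination h9

end Pool.Agent.Lib_helper74.OPS
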